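import Mathlib

set_option autoImplicit false

/-!
# Fillings of Ferrers regions

`dir true x x'` means `x' < x`, `dir false x x'` means `x < x'`. For a lower set `L` of cells the
number of permutations which agree with `w₀` outside `L` and for which every point `(x, w x)` of `L`
has at most `m` points `x'` with `dir b x x'`, `w x' < w x` and `(x', w x) ∈ L` does not depend on
`b`.
-/

namespace Pool.Agent.Q114.ShapeWilf

open Finset

variable {n : ℕ}

/-- Left or right. -/
def dir (b : Bool) (x x' : Fin n) : Prop :=
  match b with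
  | true => x' < x
  | false => x < x'

/-- `w` agrees with `w₀` outside `L`. -/
def Cl (L : Set (Fin n × Fin n)) (w₀ w : Equiv.Perm (Fin n)) : Prop :=
  ∀ x, w x = w₀ x ∨ ((x, w₀ x) ∈ L ∧ (x, w x) ∈ L)

open Classical in
/-- The condition at the point `(x, w x)`. -/
noncomputable def cnd (b : Bool) (m : ℕ) (L : Set (Fin n × Fin n)) (w : Equiv.Perm (Fin n))
    (x : Fin n) : Prop :=
  (Finset.univ.filter (fun x' => dir b x x' ∧ w x' < w x ∧ (x', w x) ∈ L)).card ≤ m

theorem card_rank {α : Type*} (F : Finset α) (r : α → ℕ) (hinj : Set.InjOn r F)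
    (hlt : ∀ x ∈ F, r x < F.card) (m : ℕ) :
    (F.filter (fun x => r x ≤ m)).card = ((Finset.range F.card).filter (fun i => i ≤ m)).card := by
  have him : F.image r = Finset.range F.card := by
    apply Finset.eq_of_subset_of_card_le
    · intro i hi
      obtain ⟨x, hx, rfl⟩ := Finset.mem_image.1 hi
      exact Finset.mem_range.2 (hlt x hx)
    · rw [Finset.card_range, Finset.card_image_of_injOn hinj]
  have h2 : ((Finset.range F.card).filter (fun i => i ≤ m)) =
      (F.filter (fun x => r x ≤ m)).image r := by
    rw [← him, Finset.filter_image]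
  rw [h2, Finset.card_image_of_injOn]
  exact hinj.mono (fun x hx => (Finset.mem_filter.1 hx).1)

open Classical in
theorem card_dir (b : Bool) (F : Finset (Fin n)) (m : ℕ) :
    (F.filter (fun x => (F.filter (fun x' => dir b x x')).card ≤ m)).card =
      ((Finset.range F.card).filter (fun i => i ≤ m)).card := by
  apply card_rank F (fun x => (F.filter (fun x' => dir b x x')).card)
  · intro x hx y hy hxy
    by_contra hne
    have key : ∀ x y, x ∈ F → dir b y x →
        (F.filter (fun x' => dir b x x')).card < (F.filter (fun x' => dir b y x')).card := by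
      intro x y hx hd
      apply Finset.card_lt_card
      rw [Finset.ssubset_iff_of_subset]
      · refine ⟨x, Finset.mem_filter.2 ⟨hx, hd⟩, fun hc => ?_⟩
        have := (Finset.mem_filter.1 hc).2
        cases b <;> exact lt_irrefl _ this
      · intro z hz
        rw [Finset.mem_filter] at hz ⊢
        refine ⟨hz.1, ?_⟩
        cases b
        · exact lt_trans hd hz.2
        · exact lt_trans hz.2 hd
    rcases lt_or_gt_of_ne hne with h | h
    · cases b
      · exact absurd hxy (ne_of_gt (key y x hy h))
      · exact absurd hxy (ne_of_lt (key x y hx h))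
    · cases b
      · exact absurd hxy (ne_of_lt (key x y hx h))
      · exact absurd hxy (ne_of_gt (key y x hy h))
  · intro x hx
    apply Finset.card_lt_card
    rw [Finset.ssubset_iff_of_subset (Finset.filter_subset _ _)]
    refine ⟨x, hx, fun hc => ?_⟩
    have := (Finset.mem_filter.1 hc).2
    cases b <;> exact lt_irrefl _ this

section Count

variable {L : Set (Fin n × Fin n)} (hL : IsLowerSet L) {w₀ : Equiv.Perm (Fin n)} (m : ℕ)

open Classical in
/-- Permutations of the class which agree with `w` on the rows `≥ t` and satisfy the condition at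
the points in rows `< t`. -/
noncomputable def E (L : Set (Fin n × Fin n)) (w₀ : Equiv.Perm (Fin n)) (m : ℕ) (b : Bool) (t : ℕ)
    (w : Equiv.Perm (Fin n)) : Finset (Equiv.Perm (Fin n)) :=
  Finset.univ.filter (fun u => Cl L w₀ u ∧ (∀ y : Fin n, t ≤ y → u.symm y = w.symm y) ∧
    ∀ x, (x, u x) ∈ L → (u x : ℕ) < t → cnd b m L u x)

theorem mem_E {b : Bool} {t : ℕ} {w u : Equiv.Perm (Fin n)} :
    u ∈ E L w₀ m b t w ↔ Cl L w₀ u ∧ (∀ y : Fin n, t ≤ y → u.symm y = w.symm y) ∧
    ∀ x, (x, u x) ∈ L → (u x : ℕ) < t → cnd b m L u x := by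
  classical
  rw [E, Finset.mem_filter]
  exact ⟨fun h => h.2, fun h => ⟨Finset.mem_univ _, h⟩⟩

open Classical in
/-- Free columns for the row `τ`. -/
noncomputable def Fr (L : Set (Fin n × Fin n)) (τ : Fin n) (w : Equiv.Perm (Fin n)) :
    Finset (Fin n) :=
  Finset.univ.filter (fun x => (x, τ) ∈ L ∧ w x ≤ τ)

theorem mem_Fr {τ : Fin n} {w : Equiv.Perm (Fin n)} {x : Fin n} :
    x ∈ Fr L τ w ↔ (x, τ) ∈ L ∧ w x ≤ τ := by
  classical
  rw [Fr, Finset.mem_filter]
  exact ⟨fun h => h.2, fun h => ⟨Finset.mem_univ _, h⟩⟩

include hL in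
theorem card_Fr (τ : Fin n) {w : Equiv.Perm (Fin n)} (hw : Cl L w₀ w) :
    (Fr L τ w).card = (Fr L τ w₀).card := by
  classical
  have h1 : ∀ u : Equiv.Perm (Fin n), (Fr L τ u).card +
      (Finset.univ.filter (fun y : Fin n => (u.symm y, τ) ∈ L ∧ τ < y)).card =
      (Finset.univ.filter (fun x : Fin n => (x, τ) ∈ L)).card := by
    intro u
    have e1 : (Finset.univ.filter (fun y : Fin n => (u.symm y, τ) ∈ L ∧ τ < y)).card =
        (Finset.univ.filter (fun x : Fin n => (x, τ) ∈ L ∧ τ < u x)).card := by
      apply Finset.card_bij (fun y _ => u.symm y)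
      · intro y hy
        rw [Finset.mem_filter] at hy ⊢
        simpa using hy.2
      · intro y _ y' _ e
        exact u.symm.injective e
      · intro x hx
        rw [Finset.mem_filter] at hx
        refine ⟨u x, ?_, by simp⟩
        rw [Finset.mem_filter]
        simpa using hx.2
    rw [e1, Fr, ← Finset.card_union_of_disjoint]
    · congr 1
      ext x
      simp only [Finset.mem_union, Finset.mem_filter, Finset.mem_univ, true_and]
      constructor
      · rintro (h | h) <;> exact h.1
      · intro h
        rcases le_or_gt (u x) τ with h' | h'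
        · exact Or.inl ⟨h, h'⟩
        · exact Or.inr ⟨h, h'⟩
    · rw [Finset.disjoint_filter]
      intro x _ h1 h2
      exact absurd h1.2 (not_le.2 h2.2)
  have h2 : (Finset.univ.filter (fun y : Fin n => (w.symm y, τ) ∈ L ∧ τ < y)) =
      (Finset.univ.filter (fun y : Fin n => (w₀.symm y, τ) ∈ L ∧ τ < y)) := by
    ext y
    simp only [Finset.mem_filter, Finset.mem_univ, true_and]
    constructor
    · rintro ⟨h3, h4⟩
      refine ⟨?_, h4⟩
      rcases hw (w₀.symm y) with h | h
      · have : w.symm y = w₀.symm y := by
          rw [Equiv.symm_apply_eq, h]; simp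
        rw [← this]; exact h3
      · have := h.1
        rw [Equiv.apply_symm_apply] at this
        exact hL (show ((w₀.symm y, τ) : Fin n × Fin n) ≤ (w₀.symm y, y) from ⟨le_rfl, h4.le⟩) this
    · rintro ⟨h3, h4⟩
      refine ⟨?_, h4⟩
      rcases hw (w.symm y) with h | h
      · have : w₀.symm y = w.symm y := by
          rw [Equiv.symm_apply_eq, ← h]; simp
        rw [← this]; exact h3
      · have := h.2
        rw [Equiv.apply_symm_apply] at this
        exact hL (show ((w.symm y, τ) : Fin n × Fin n) ≤ (w.symm y, y) from ⟨le_rfl, h4.le⟩) this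
  have h3 := h1 w
  have h4 := h1 w₀
  rw [h2] at h3
  omega

include hL in
theorem main_count : ∀ t : ℕ, t ≤ n → ∃ N : ℕ, ∀ b : Bool, ∀ w : Equiv.Perm (Fin n), Cl L w₀ w →
    (E L w₀ m b t w).card = N := by
  classical
  intro t
  induction t with
  | zero =>
    intro _
    refine ⟨1, fun b w hw => ?_⟩
    have : E L w₀ m b 0 w = {w} := by
      ext u
      rw [mem_E, Finset.mem_singleton]
      constructor
      · rintro ⟨_, h2, _⟩
        have : u.symm = w.symm := by ext y; rw [h2 y (Nat.zero_le _)]
        rw [← Equiv.symm_symm u, this, Equiv.symm_symm]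
      · rintro rfl
        exact ⟨hw, fun _ _ => rfl, fun x _ h => absurd h (Nat.not_lt_zero _)⟩
    rw [this, Finset.card_singleton]
  | succ t ih =>
    intro ht
    obtain ⟨N, hN⟩ := ih (by omega)
    set τ : Fin n := ⟨t, by omega⟩ with hτ
    by_cases hact : (w₀.symm τ, τ) ∈ L
    · -- active row
      refine ⟨((Finset.range (Fr L τ w₀).card).filter (fun i => i ≤ m)).card * N, ?_⟩
      intro b w hw
      have hact' : ∀ u, Cl L w₀ u → (u.symm τ, τ) ∈ L := by
        intro u hu
        rcases hu (u.symm τ) with h | h
        · have : w₀.symm τ = u.symm τ := by rw [Equiv.symm_apply_eq, ← h]; simp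
          rw [← this]; exact hact
        · have := h.2
          rwa [Equiv.apply_symm_apply] at this
      set S : Finset (Fin n) := (Fr L τ w).filter
        (fun x => ((Fr L τ w).filter (fun x' => dir b x x')).card ≤ m) with hS
      have hScard : S.card = ((Finset.range (Fr L τ w₀).card).filter (fun i => i ≤ m)).card := by
        rw [hS, card_dir b (Fr L τ w) m, card_Fr hL τ hw]
      -- same low columns
      have hlow : ∀ u : Equiv.Perm (Fin n), (∀ y : Fin n, t + 1 ≤ y → u.symm y = w.symm y) →
          ∀ x, u x ≤ τ ↔ w x ≤ τ := by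
        intro u hu x
        constructor
        · intro h
          by_contra hc
          have h1 : t + 1 ≤ (w x : ℕ) := by
            have : ¬ (w x : ℕ) ≤ t := fun h' => hc (by exact h')
            omega
          have h2 := hu (w x) h1
          rw [Equiv.symm_apply_apply, Equiv.symm_apply_eq] at h2
          rw [h2] at hc
          exact hc h
        · intro h
          by_contra hc
          have h1 : t + 1 ≤ (u x : ℕ) := by
            have : ¬ (u x : ℕ) ≤ t := fun h' => hc (by exact h')
            omega
          have h2 := hu (u x) h1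
          rw [Equiv.symm_apply_apply] at h2
          have h3 : w x = u x := by
            rw [h2]; simp only [Equiv.apply_symm_apply]
            rw [← h2]
          rw [← h3] at hc
          exact hc h
      -- the condition in row τ
      have hcnd : ∀ u : Equiv.Perm (Fin n), (∀ y : Fin n, t + 1 ≤ y → u.symm y = w.symm y) →
          (cnd b m L u (u.symm τ) ↔ ((Fr L τ w).filter (fun x' => dir b (u.symm τ) x')).card ≤ m) := by
        intro u hu
        rw [cnd]
        have : (Finset.univ.filter (fun x' => dir b (u.symm τ) x' ∧ u x' < u (u.symm τ) ∧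
            (x', u (u.symm τ)) ∈ L)) = (Fr L τ w).filter (fun x' => dir b (u.symm τ) x') := by
          ext x'
          rw [Finset.mem_filter, Finset.mem_filter, mem_Fr, Equiv.apply_symm_apply]
          constructor
          · rintro ⟨-, h1, h2, h3⟩
            exact ⟨⟨h3, (hlow u hu x').1 h2.le⟩, h1⟩
          · rintro ⟨⟨h3, h2⟩, h1⟩
            refine ⟨Finset.mem_univ _, h1, lt_of_le_of_ne ((hlow u hu x').2 h2) ?_, h3⟩
            intro e
            have : x' = u.symm τ := by rw [← e]; simp
            rw [← this] at h1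
            cases b <;> exact lt_irrefl _ h1
        rw [this]
      have hmaps : ∀ u ∈ E L w₀ m b (t + 1) w, u.symm τ ∈ S := by
        intro u hu
        rw [mem_E] at hu
        obtain ⟨h1, h2, h3⟩ := hu
        have h4 := hact' u h1
        rw [hS, Finset.mem_filter, mem_Fr]
        refine ⟨⟨h4, (hlow u h2 _).1 (by rw [Equiv.apply_symm_apply])⟩, ?_⟩
        rw [← hcnd u h2]
        apply h3
        · rw [Equiv.apply_symm_apply]; exact h4
        · rw [Equiv.apply_symm_apply]; exact Nat.lt_succ_self t
      rw [Finset.card_eq_sum_card_fiberwise hmaps]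
      have hfib : ∀ x ∈ S, ((E L w₀ m b (t + 1) w).filter (fun u => u.symm τ = x)).card = N := by
        intro x hx
        rw [hS, Finset.mem_filter, mem_Fr] at hx
        obtain ⟨⟨hx1, hx2⟩, hx3⟩ := hx
        set x₁ : Fin n := w.symm τ with hx₁
        have hwx₁ : w x₁ = τ := by rw [hx₁]; simp
        have hx₁L : (x₁, τ) ∈ L := hact' w hw
        set w' : Equiv.Perm (Fin n) := Equiv.swap x x₁ * 1 |>.trans w with hw'
        have hw'x : w' x = τ := by
          rw [hw']; simp [Equiv.swap_apply_left, hwx₁]
        have hw'x₁ : w' x₁ = w x := by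
          rw [hw']; simp [Equiv.swap_apply_right]
        have hw'z : ∀ z, z ≠ x → z ≠ x₁ → w' z = w z := by
          intro z h1 h2
          rw [hw']; simp [Equiv.swap_apply_of_ne_of_ne h1 h2]
        have hcol : ∀ z, (z, τ) ∈ L → w z ≤ τ → (z, w₀ z) ∈ L := by
          intro z h1 h2
          rcases hw z with h | h
          · rw [← h]
            exact hL (show ((z, w z) : Fin n × Fin n) ≤ (z, τ) from ⟨le_rfl, h2⟩) h1
          · exact h.1
        have hCl' : Cl L w₀ w' := by
          intro z
          by_cases h1 : z = x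
          · right
            rw [h1, hw'x]
            exact ⟨hcol x hx1 hx2, hx1⟩
          by_cases h2 : z = x₁
          · right
            rw [h2, hw'x₁]
            exact ⟨hcol x₁ hx₁L (by rw [hwx₁]),
              hL (show ((x₁, w x) : Fin n × Fin n) ≤ (x₁, τ) from ⟨le_rfl, hx2⟩) hx₁L⟩
          rw [hw'z z h1 h2]
          exact hw z
        have hsymm : ∀ y : Fin n, t + 1 ≤ y → w'.symm y = w.symm y := by
          intro y hy
          have hyτ : y ≠ τ := by
            intro e; rw [e] at hy; simp [hτ] at hy
          rw [Equiv.symm_apply_eq, hw'z]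
          · simp
          · intro e
            have : w x = y := by rw [← e]; simp
            rw [this] at hx2
            have : (y : ℕ) ≤ t := hx2
            omega
          · intro e
            have : w x₁ = y := by rw [← e]; simp
            exact hyτ (by rw [← this, hwx₁])
        have hset : (E L w₀ m b (t + 1) w).filter (fun u => u.symm τ = x) = E L w₀ m b t w' := by
          ext u
          rw [Finset.mem_filter, mem_E, mem_E]
          constructor
          · rintro ⟨⟨h1, h2, h3⟩, h4⟩
            refine ⟨h1, ?_, fun z hz hz' => h3 z hz (by omega)⟩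
            intro y hy
            rcases Nat.lt_or_ge t y with h5 | h5
            · rw [h2 y h5, hsymm y h5]
            · have : y = τ := by ext; simp [hτ]; omega
              rw [this, h4, eq_comm, Equiv.symm_apply_eq, hw'x]
          · rintro ⟨h1, h2, h3⟩
            have h4 : u.symm τ = x := by
              rw [h2 τ (by simp [hτ]), Equiv.symm_apply_eq, hw'x]
            have h5 : ∀ y : Fin n, t + 1 ≤ y → u.symm y = w.symm y := by
              intro y hy
              rw [h2 y (by omega), hsymm y hy]
            refine ⟨⟨h1, h5, ?_⟩, h4⟩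
            intro z hz hz'
            rcases Nat.lt_or_ge (u z) t with h6 | h6
            · exact h3 z hz h6
            · have h7 : u z = τ := by ext; simp [hτ]; omega
              have h8 : z = u.symm τ := by rw [← h7]; simp
              rw [h8, hcnd u h5, h4]
              exact hx3
        rw [hset]
        exact hN b w' hCl'
      rw [Finset.sum_congr rfl hfib, Finset.sum_const, smul_eq_mul, hScard]
    · -- inactive row
      refine ⟨N, fun b w hw => ?_⟩
      have hin : ∀ u, Cl L w₀ u → u.symm τ = w₀.symm τ := by
        intro u hu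
        rcases hu (w₀.symm τ) with h | h
        · rw [Equiv.symm_apply_eq, h]; simp
        · exact absurd (by simpa using h.1) hact
      rw [← hN b w hw]
      congr 1
      ext u
      rw [mem_E, mem_E]
      constructor
      · rintro ⟨h1, h2, h3⟩
        refine ⟨h1, ?_, fun z hz hz' => h3 z hz (by omega)⟩
        intro y hy
        rcases Nat.lt_or_ge t y with h5 | h5
        · exact h2 y h5
        · have : y = τ := by ext; simp [hτ]; omega
          rw [this, hin u h1, hin w hw]
      · rintro ⟨h1, h2, h3⟩
        refine ⟨h1, fun y hy => h2 y (by omega), ?_⟩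
        intro z hz hz'
        rcases Nat.lt_or_ge (u z) t with h6 | h6
        · exact h3 z hz h6
        · have h7 : u z = τ := by ext; simp [hτ]; omega
          have h8 : z = w₀.symm τ := by rw [← hin u h1, ← h7]; simp
          rw [h7, h8] at hz
          exact absurd hz hact

end Count

section Transfer

/-- Cells with a good configuration strictly north-east. -/
def Lr (G : Finset (Fin n) → Equiv.Perm (Fin n) → Prop) (w : Equiv.Perm (Fin n)) :
    Set (Fin n × Fin n) :=
  {c | ∃ s : Finset (Fin n), s.Nonempty ∧ G s w ∧ ∀ x ∈ s, c.1 < x ∧ c.2 < w x}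

theorem Lr_lower (G : Finset (Fin n) → Equiv.Perm (Fin n) → Prop) (w : Equiv.Perm (Fin n)) :
    IsLowerSet (Lr G w) := by
  rintro a b hba ⟨s, hs, hG, h⟩
  exact ⟨s, hs, hG, fun x hx => ⟨lt_of_le_of_lt hba.1 (h x hx).1, lt_of_le_of_lt hba.2 (h x hx).2⟩⟩

theorem Lr_stable {G : Finset (Fin n) → Equiv.Perm (Fin n) → Prop}
    (hG : ∀ s w w', (∀ x ∈ s, w x = w' x) → G s w → G s w') {w₀ w : Equiv.Perm (Fin n)}
    (h : Cl (Lr G w₀) w₀ w) : Lr G w = Lr G w₀ := by
  apply Set.Subset.antisymm
  · rintro c ⟨s, hs, hGs, hc⟩
    by_cases hall : ∀ x ∈ s, w x = w₀ x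
    · exact ⟨s, hs, hG s w w₀ hall hGs, fun x hx => by rw [← hall x hx]; exact hc x hx⟩
    · push Not at hall
      obtain ⟨x, hx, hne⟩ := hall
      have := ((h x).resolve_left hne).2
      exact Lr_lower G w₀ (show c ≤ (x, w x) from ⟨(hc x hx).1.le, (hc x hx).2.le⟩) this
  · have key : ∀ k : ℕ, ∀ c : Fin n × Fin n, n ≤ k + c.1 → c ∈ Lr G w₀ → c ∈ Lr G w := by
      intro k
      induction k with
      | zero =>
        intro c hk
        have := c.1.2
        omega
      | succ k ih =>
        rintro c hk ⟨s, hs, hGs, hc⟩
        by_cases hall : ∀ x ∈ s, w x = w₀ x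
        · exact ⟨s, hs, hG s w₀ w (fun x hx => (hall x hx).symm) hGs,
            fun x hx => by rw [hall x hx]; exact hc x hx⟩
        · push Not at hall
          obtain ⟨x, hx, hne⟩ := hall
          have h1 := ((h x).resolve_left hne).1
          have h2 : (c.1 : ℕ) < x := (hc x hx).1
          have h3 := ih (x, w₀ x) (by show n ≤ k + (x : ℕ); omega) h1
          exact Lr_lower G w (show c ≤ (x, w₀ x) from ⟨(hc x hx).1.le, (hc x hx).2.le⟩) h3
    exact fun c => key n c (by omega)

open Classical in
/-- The transfer theorem. -/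
theorem transfer (G : Finset (Fin n) → Equiv.Perm (Fin n) → Prop)
    (hG : ∀ s w w', (∀ x ∈ s, w x = w' x) → G s w → G s w') (m : ℕ) :
    (Finset.univ.filter (fun w : Equiv.Perm (Fin n) =>
      ∀ x, (x, w x) ∈ Lr G w → cnd true m (Lr G w) w x)).card =
    (Finset.univ.filter (fun w : Equiv.Perm (Fin n) =>
      ∀ x, (x, w x) ∈ Lr G w → cnd false m (Lr G w) w x)).card := by
  have hrefl : ∀ w, Cl (Lr G w) w w := fun w x => Or.inl rfl
  have hsymm : ∀ w w', Cl (Lr G w) w w' → Cl (Lr G w') w' w := by
    intro w w' h
    rw [Lr_stable hG h]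
    intro x
    rcases h x with h1 | h1
    · exact Or.inl h1.symm
    · exact Or.inr ⟨h1.2, h1.1⟩
  have htrans : ∀ w w' w'', Cl (Lr G w) w w' → Cl (Lr G w') w' w'' → Cl (Lr G w) w w'' := by
    intro w w' w'' h h'
    rw [Lr_stable hG h] at h'
    intro x
    rcases h x with h1 | h1 <;> rcases h' x with h2 | h2
    · exact Or.inl (h2.trans h1)
    · right; rw [h1] at h2; exact h2
    · right; rw [h2]; exact h1
    · exact Or.inr ⟨h1.1, h2.2⟩
  let st : Setoid (Equiv.Perm (Fin n)) :=
    ⟨fun w w' => Cl (Lr G w) w w', ⟨hrefl, fun {a b} h => hsymm a b h,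
      fun {a b c} h h' => htrans a b c h h'⟩⟩
  have key : ∀ b : Bool, (Finset.univ.filter (fun w : Equiv.Perm (Fin n) =>
      ∀ x, (x, w x) ∈ Lr G w → cnd b m (Lr G w) w x)).card =
      ∑ q : Quotient st, (E (Lr G q.out) q.out m b n q.out).card := by
    intro b
    rw [Finset.card_eq_sum_card_fiberwise (f := fun w => (Quotient.mk st w)) (t := Finset.univ)
      (fun _ _ => Finset.mem_coe.2 (Finset.mem_univ _))]
    apply Finset.sum_congr rfl
    intro q _
    congr 1
    ext w
    rw [Finset.mem_filter, Finset.mem_filter, mem_E]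
    have hq : Quotient.mk st w = q ↔ Cl (Lr G q.out) q.out w := by
      constructor
      · intro h
        have h1 : Quotient.mk st q.out = Quotient.mk st w := by rw [Quotient.out_eq, h]
        exact Quotient.exact h1
      · intro h
        have h1 : Quotient.mk st q.out = Quotient.mk st w := Quotient.sound h
        rw [← h1, Quotient.out_eq]
    rw [hq]
    constructor
    · rintro ⟨⟨-, h1⟩, h2⟩
      rw [Lr_stable hG h2] at h1
      refine ⟨h2, fun y hy => absurd y.2 (by omega), fun x hx _ => h1 x hx⟩
    · rintro ⟨h2, -, h3⟩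
      refine ⟨⟨Finset.mem_univ _, ?_⟩, h2⟩
      rw [Lr_stable hG h2]
      exact fun x hx => h3 x hx (w x).2
  rw [key true, key false]
  apply Finset.sum_congr rfl
  intro q _
  obtain ⟨N, hN⟩ := main_count (Lr_lower G q.out) (w₀ := q.out) m n le_rfl
  rw [hN true _ (hrefl _), hN false _ (hrefl _)]

end Transfer

end Pool.Agent.Q114.ShapeWilf
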